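import Pool.Agent.W805.DWMain

/-!
# Observability of the example on every set of times, and the lower bound at every time
-/

set_option autoImplicit false

open Filter Topology Set MeasureTheory
open scoped InnerProductSpace ENNReal
open Pool.Agent.W805.DW

namespace Pool.Agent.Y603.DW

/-- the zeros of `r - C cos 2t - S sin 2t` with `r² = C² + S²`, `r > 0`, are null -/
lemma zeros_null {C S r : ℝ} (hr : 0 < r) (h : r ^ 2 = C ^ 2 + S ^ 2) :
    volume {t : ℝ | r - C * Real.cos (2 * t) - S * Real.sin (2 * t) = 0} = 0 := by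
  set Z : Set ℝ := {t : ℝ | r - C * Real.cos (2 * t) - S * Real.sin (2 * t) = 0} with hZ
  have hval : ∀ t ∈ Z, r * Real.cos (2 * t) = C ∧ r * Real.sin (2 * t) = S := by
    intro t ht
    have h1 : r - C * Real.cos (2 * t) - S * Real.sin (2 * t) = 0 := ht
    have h2 := Real.sin_sq_add_cos_sq (2 * t)
    have h3 : (r * Real.cos (2 * t) - C) ^ 2 + (r * Real.sin (2 * t) - S) ^ 2 = 0 := by
      have h4 : (r * Real.cos (2 * t) - C) ^ 2 + (r * Real.sin (2 * t) - S) ^ 2 =
          r ^ 2 * (Real.sin (2 * t) ^ 2 + Real.cos (2 * t) ^ 2) -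
          2 * r * (C * Real.cos (2 * t) + S * Real.sin (2 * t)) + (C ^ 2 + S ^ 2) := by ring
      rw [h4, h2, ← h]
      have h5 : C * Real.cos (2 * t) + S * Real.sin (2 * t) = r := by linarith
      rw [h5]
      ring
    have h5 := sq_nonneg (r * Real.cos (2 * t) - C)
    have h6 := sq_nonneg (r * Real.sin (2 * t) - S)
    constructor
    · have : (r * Real.cos (2 * t) - C) ^ 2 = 0 := by linarith
      have := pow_eq_zero_iff (two_ne_zero) |>.1 this
      linarith
    · have : (r * Real.sin (2 * t) - S) ^ 2 = 0 := by linarith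
      have := pow_eq_zero_iff (two_ne_zero) |>.1 this
      linarith
  apply Set.Countable.measure_zero
  rcases Z.eq_empty_or_nonempty with hE | ⟨t0, ht0⟩
  · rw [hE]
    exact Set.countable_empty
  · refine (Set.countable_range fun k : ℤ => t0 + k * Real.pi).mono ?_
    intro t ht
    obtain ⟨a1, a2⟩ := hval t ht
    obtain ⟨b1, b2⟩ := hval t0 ht0
    have c1 : Real.cos (2 * t) = Real.cos (2 * t0) :=
      mul_left_cancel₀ hr.ne' (a1.trans b1.symm)
    have c2 : Real.sin (2 * t) = Real.sin (2 * t0) :=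
      mul_left_cancel₀ hr.ne' (a2.trans b2.symm)
    have c3 : Real.cos (2 * t - 2 * t0) = 1 := by
      rw [Real.cos_sub, c1, c2]
      have := Real.sin_sq_add_cos_sq (2 * t0)
      linarith [this]
    obtain ⟨k, hk⟩ := (Real.cos_eq_one_iff _).1 c3
    exact ⟨k, by
      show t0 + k * Real.pi = t
      linarith⟩

/-- the two exponentials are uniformly independent on every set of positive measure -/
lemma gap {T : ℝ} {E : Set ℝ} (hE : MeasurableSet E) (hET : E ⊆ Icc 0 T) (hpos : 0 < volume E) :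
    √((∫ t in E, Real.cos (2 * t)) ^ 2 + (∫ t in E, Real.sin (2 * t)) ^ 2) < volume.real E := by
  have hfin : volume E ≠ ∞ := ((measure_mono hET).trans_lt (by simp)).ne
  have hE0 : 0 < volume.real E := ENNReal.toReal_pos hpos.ne' hfin
  have hic : IntegrableOn (fun t : ℝ => Real.cos (2 * t)) E volume :=
    (Continuous.integrableOn_Icc (by fun_prop)).mono_set hET
  have his : IntegrableOn (fun t : ℝ => Real.sin (2 * t)) E volume :=
    (Continuous.integrableOn_Icc (by fun_prop)).mono_set hET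
  generalize hC : ∫ t in E, Real.cos (2 * t) = C
  generalize hS : ∫ t in E, Real.sin (2 * t) = S
  set r : ℝ := √(C ^ 2 + S ^ 2) with hr
  have hr0 : 0 ≤ r := Real.sqrt_nonneg _
  have hr2 : r ^ 2 = C ^ 2 + S ^ 2 := Real.sq_sqrt (by positivity)
  rcases hr0.eq_or_lt with h0 | h0
  · rw [← h0]
    exact hE0
  · have hcs : ∀ t : ℝ, 0 ≤ r - C * Real.cos (2 * t) - S * Real.sin (2 * t) := by
      intro t
      have h2 := Real.sin_sq_add_cos_sq (2 * t)
      have h3 : C * Real.cos (2 * t) + S * Real.sin (2 * t) ≤ r := by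
        apply Real.le_sqrt_of_sq_le
        have h4 : C ^ 2 + S ^ 2 = (C * Real.cos (2 * t) + S * Real.sin (2 * t)) ^ 2 +
            (C * Real.sin (2 * t) - S * Real.cos (2 * t)) ^ 2 := by
          have : (C * Real.cos (2 * t) + S * Real.sin (2 * t)) ^ 2 +
            (C * Real.sin (2 * t) - S * Real.cos (2 * t)) ^ 2 =
            (C ^ 2 + S ^ 2) * (Real.sin (2 * t) ^ 2 + Real.cos (2 * t) ^ 2) := by ring
          rw [this, h2, mul_one]
        have h5 := sq_nonneg (C * Real.sin (2 * t) - S * Real.cos (2 * t))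
        linarith
      linarith
    have hint : IntegrableOn (fun t : ℝ => r - C * Real.cos (2 * t) - S * Real.sin (2 * t)) E
        volume :=
      (Continuous.integrableOn_Icc (by fun_prop)).mono_set hET
    have hp : 0 < ∫ t in E, (r - C * Real.cos (2 * t) - S * Real.sin (2 * t)) := by
      rw [setIntegral_pos_iff_support_of_nonneg_ae (Filter.Eventually.of_forall hcs) hint]
      have h1 : E \ {t : ℝ | r - C * Real.cos (2 * t) - S * Real.sin (2 * t) = 0} ⊆
          Function.support (fun t : ℝ => r - C * Real.cos (2 * t) - S * Real.sin (2 * t)) ∩ E :=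
        fun t ht => ⟨ht.2, ht.1⟩
      refine lt_of_lt_of_le ?_ (measure_mono h1)
      rw [measure_sdiff_null (zeros_null h0 hr2)]
      exact hpos
    have hval : ∫ t in E, (r - C * Real.cos (2 * t) - S * Real.sin (2 * t)) =
        volume.real E * r - C * C - S * S := by
      rw [integral_sub, integral_sub, integral_const_mul, integral_const_mul, hC, hS,
        setIntegral_const, smul_eq_mul]
      · exact integrableOn_const hfin
      · exact hic.const_mul C
      · exact (integrableOn_const hfin).sub (hic.const_mul C)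
      · exact his.const_mul S
    rw [hval] at hp
    have h3 : r * r < volume.real E * r := by nlinarith
    exact lt_of_mul_lt_mul_right h3 hr0

/-- the observation over a set of times -/
lemma obs_set (μ : ℕ → ℝ) {T : ℝ} {E : Set ℝ} (hE : MeasurableSet E) (hET : E ⊆ Icc 0 T)
    (u : ℝ → L2 (ℕ × Bool)) (hu : IsSchrodingerSol (dop (ev μ)) T u) :
    (1 / 2) * (volume.real E -
        √((∫ t in E, Real.cos (2 * t)) ^ 2 + (∫ t in E, Real.sin (2 * t)) ^ 2)) * ‖u 0‖ ^ 2 ≤
      ∫ t in E, ‖G (u t)‖ ^ 2 := by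
  have hfin : volume E ≠ ∞ := ((measure_mono hET).trans_lt (by simp)).ne
  have hic : IntegrableOn (fun t : ℝ => Real.cos (2 * t)) E volume :=
    (Continuous.integrableOn_Icc (by fun_prop)).mono_set hET
  have his : IntegrableOn (fun t : ℝ => Real.sin (2 * t)) E volume :=
    (Continuous.integrableOn_Icc (by fun_prop)).mono_set hET
  have h1 : ∫ t in E, ‖G (u t)‖ ^ 2 = ∫ t in E,
      (1 / 2) * (‖res true (u 0)‖ ^ 2 + ‖res false (u 0)‖ ^ 2 +
      2 * (Real.cos (2 * t) * (⟪res true (u 0), res false (u 0)⟫_ℂ).re -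
        Real.sin (2 * t) * (⟪res true (u 0), res false (u 0)⟫_ℂ).im)) :=
    setIntegral_congr_fun hE fun t ht => obs_norm μ T u hu t (hET ht)
  have h2 : ‖u 0‖ ^ 2 = ‖res true (u 0)‖ ^ 2 + ‖res false (u 0)‖ ^ 2 := norm_sq_split (u 0)
  rw [h1]
  have hin : ‖⟪res true (u 0), res false (u 0)⟫_ℂ‖ ≤ ‖u 0‖ ^ 2 / 2 := by
    have h3 := norm_inner_le_norm (𝕜 := ℂ) (res true (u 0)) (res false (u 0))
    have h4 := sq_nonneg (‖res true (u 0)‖ - ‖res false (u 0)‖)
    rw [h2]
    nlinarith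
  rw [← h2]
  generalize hz : ⟪res true (u 0), res false (u 0)⟫_ℂ = z at hin ⊢
  have hval : ∫ t in E, (1 / 2) * (‖u 0‖ ^ 2 + 2 * (Real.cos (2 * t) * z.re -
      Real.sin (2 * t) * z.im)) = (1 / 2) * (volume.real E * ‖u 0‖ ^ 2 +
        2 * ((∫ t in E, Real.cos (2 * t)) * z.re - (∫ t in E, Real.sin (2 * t)) * z.im)) := by
    rw [integral_const_mul, integral_add, setIntegral_const, smul_eq_mul, integral_const_mul,
      integral_sub, integral_mul_const, integral_mul_const]
    · exact hic.mul_const _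
    · exact his.mul_const _
    · exact integrableOn_const hfin
    · exact ((hic.mul_const _).sub (his.mul_const _)).const_mul 2
  rw [hval]
  generalize (∫ t in E, Real.cos (2 * t)) = C
  generalize (∫ t in E, Real.sin (2 * t)) = S
  set r : ℝ := √(C ^ 2 + S ^ 2) with hr
  have hr0 : 0 ≤ r := Real.sqrt_nonneg _
  have hcs : -(r * ‖z‖) ≤ C * z.re - S * z.im := by
    have h5 : |C * z.re - S * z.im| ≤ r * ‖z‖ := by
      rw [← Real.sqrt_sq_eq_abs, Complex.norm_def, hr, ← Real.sqrt_mul (by positivity)]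
      apply Real.sqrt_le_sqrt
      rw [Complex.normSq_apply]
      have := sq_nonneg (C * z.im + S * z.re)
      nlinarith
    exact (abs_le.1 h5).1
  have h6 : r * ‖z‖ ≤ r * (‖u 0‖ ^ 2 / 2) := mul_le_mul_of_nonneg_left hin hr0
  nlinarith

lemma observable_set (μ : ℕ → ℝ) {T : ℝ} {E : Set ℝ} (hE : MeasurableSet E) (hET : E ⊆ Icc 0 T)
    (hpos : 0 < volume E) : ∃ K : ℝ, 0 < K ∧ ∀ u : ℝ → L2 (ℕ × Bool),
      IsSchrodingerSol (dop (ev μ)) T u →
      ‖u 0‖ ^ 2 ≤ K * ∫ t in E, ‖ContinuousLinearMap.adjoint B (u t)‖ ^ 2 := by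
  have hg := gap hE hET hpos
  have h0 : 0 < volume.real E -
    √((∫ t in E, Real.cos (2 * t)) ^ 2 + (∫ t in E, Real.sin (2 * t)) ^ 2) := by linarith
  have hobs := fun u hu => obs_set μ hE hET u hu
  generalize volume.real E -
    √((∫ t in E, Real.cos (2 * t)) ^ 2 + (∫ t in E, Real.sin (2 * t)) ^ 2) = g at h0 hobs
  refine ⟨2 / g, by positivity, fun u hu => ?_⟩
  rw [adjB]
  have := hobs u hu
  rw [div_mul_eq_mul_div, le_div_iff₀ h0]
  linarith

/-- the cost of short times -/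
lemma observable_short (μ : ℕ → ℝ) {T : ℝ} (hT : 0 < T) (hT1 : T ≤ 1) (u : ℝ → L2 (ℕ × Bool))
    (hu : IsSchrodingerSol (dop (ev μ)) T u) :
    ‖u 0‖ ^ 2 ≤ 18 / T ^ 3 * ∫ t in (0 : ℝ)..T, ‖ContinuousLinearMap.adjoint B (u t)‖ ^ 2 := by
  rw [adjB, intervalIntegral.integral_of_le hT.le]
  have h1 := obs_set μ (E := Ioc 0 T) measurableSet_Ioc Ioc_subset_Icc_self u hu
  have hv : volume.real (Ioc 0 T) = T := by simp [Measure.real, hT.le]
  have hc : ∫ t in Ioc 0 T, Real.cos (2 * t) = Real.sin T * Real.cos T := by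
    rw [← intervalIntegral.integral_of_le hT.le]
    have hder : ∀ t ∈ uIcc 0 T, HasDerivAt (fun t : ℝ => Real.sin (2 * t) / 2)
        (Real.cos (2 * t)) t := by
      intro t _
      have a1 : HasDerivAt (fun t : ℝ => 2 * t) (2 * 1) t := (hasDerivAt_id t).const_mul 2
      exact (a1.sin.div_const 2).congr_deriv (by ring)
    rw [intervalIntegral.integral_eq_sub_of_hasDerivAt hder
      (Continuous.intervalIntegrable (by fun_prop) _ _), Real.sin_two_mul]
    simp
    ring
  have hs : ∫ t in Ioc 0 T, Real.sin (2 * t) = Real.sin T * Real.sin T := by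
    rw [← intervalIntegral.integral_of_le hT.le]
    have hder : ∀ t ∈ uIcc 0 T, HasDerivAt (fun t : ℝ => -Real.cos (2 * t) / 2)
        (Real.sin (2 * t)) t := by
      intro t _
      have a1 : HasDerivAt (fun t : ℝ => 2 * t) (2 * 1) t := (hasDerivAt_id t).const_mul 2
      exact (a1.cos.neg.div_const 2).congr_deriv (by ring)
    rw [intervalIntegral.integral_eq_sub_of_hasDerivAt hder
      (Continuous.intervalIntegrable (by fun_prop) _ _), Real.cos_two_mul']
    simp
    have := Real.sin_sq_add_cos_sq T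
    nlinarith
  rw [hv, hc, hs] at h1
  have hsin0 : 0 ≤ Real.sin T := Real.sin_nonneg_of_nonneg_of_le_pi hT.le
    (hT1.trans (by linarith [Real.pi_gt_three]))
  have hsq : √((Real.sin T * Real.cos T) ^ 2 + (Real.sin T * Real.sin T) ^ 2) = Real.sin T := by
    have : (Real.sin T * Real.cos T) ^ 2 + (Real.sin T * Real.sin T) ^ 2 =
        Real.sin T ^ 2 * (Real.sin T ^ 2 + Real.cos T ^ 2) := by ring
    rw [this, Real.sin_sq_add_cos_sq, mul_one, Real.sqrt_sq hsin0]
  rw [hsq] at h1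
  have hb := Real.sin_bound (x := T) (by rw [abs_of_pos hT]; exact hT1)
  rw [abs_of_pos hT] at hb
  have hb2 := (abs_le.1 hb).2
  have hT3 : 0 < T ^ 3 := by positivity
  have hT4 : T ^ 4 ≤ T ^ 3 := pow_le_pow_of_le_one hT.le hT1 (by norm_num)
  have hlow : T ^ 3 * (11 / 96) ≤ T - Real.sin T := by nlinarith
  have hu0 : 0 ≤ ‖u 0‖ ^ 2 := by positivity
  have h2 : 1 / 2 * (T ^ 3 * (11 / 96)) * ‖u 0‖ ^ 2 ≤ 1 / 2 * (T - Real.sin T) * ‖u 0‖ ^ 2 :=
    mul_le_mul_of_nonneg_right (by linarith) hu0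
  have h3 := h2.trans h1
  rw [div_mul_eq_mul_div, le_div_iff₀ hT3]
  have h4 : 0 ≤ T ^ 3 * ‖u 0‖ ^ 2 := by positivity
  nlinarith

/-- `B` is isometric -/
lemma isometric (y : L2 ℕ) : ContinuousLinearMap.adjoint B (B y) = y := by
  rw [adjB]
  ext n
  rw [G_apply, B_apply, B_apply]
  have := sqrt2_inv_sq
  linear_combination (2 * (y n : ℂ)) * this

/-- the inequality for the block `n` at an arbitrary time -/
lemma key_t (f : ℝ → ℝ) (C : ℝ)
    (h : ∀ (u v : ℝ → SS.domain) (h : IsWaveSol AA SS B u v), ∀ t : ℝ, 0 < t →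
    semi SS (u t) (v t : L2 (ℕ × Bool)) ≤ C * f t * graphNrm AA SS B (u 0) (h.dom 0 le_rfl) (v 0))
    (n : ℕ) {t : ℝ} (ht : 0 < t) :
    Real.exp (-(dl n * t)) ≤ 4 * |C| * |f t| * Real.sqrt (dl n)⁻¹ := by
  have hd := dl_pos n
  have hd' := dl_le n
  have hw : 0 < ‖wv n‖ := norm_pos_iff.2 (wv_ne_zero n)
  have hz := zz_norm_ge hd hd'
  have h1 := h (uu n) (vv n) (isSol n) t ht
  have h2 := semi_ge n t
  have hg : graphNrm AA SS B (uu n 0) ((isSol n).dom 0 le_rfl) (vv n 0) =
    (1 + ‖zz (dl n)‖) * Real.sqrt (‖SS (wS n)‖ ^ 2 + ‖wv n‖ ^ 2 + ‖zz (dl n)‖ ^ 2 * ‖wv n‖ ^ 2) :=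
    graph_eq n
  rw [hg] at h1
  have h3 : Real.sqrt (‖SS (wS n)‖ ^ 2 + ‖wv n‖ ^ 2 + ‖zz (dl n)‖ ^ 2 * ‖wv n‖ ^ 2) ≤
      Real.sqrt 2 * Real.sqrt (dl n)⁻¹ * ‖wv n‖ := by
    rw [← Real.sqrt_mul (by norm_num)]
    apply Real.sqrt_le_iff.2
    refine ⟨by positivity, ?_⟩
    rw [mul_pow, Real.sq_sqrt (by positivity)]
    have h4 := norm_SwS n
    have h5 := total_le hd hd'
    have h6 : mus n = mu (dl n) := rfl
    rw [h6] at h4
    have h7 := mul_le_mul_of_nonneg_right h5 (sq_nonneg ‖wv n‖)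
    linarith
  have h8 : ‖zz (dl n)‖ * Real.exp (-(dl n * t)) * ‖wv n‖ ≤
      |C| * |f t| * ((2 * ‖zz (dl n)‖) * (2 * Real.sqrt (dl n)⁻¹ * ‖wv n‖)) := by
    refine h2.trans (h1.trans ?_)
    have h9 : C * f t ≤ |C| * |f t| := by
      rw [← abs_mul]; exact le_abs_self _
    have h10 : Real.sqrt 2 ≤ 2 := by
      rw [Real.sqrt_le_left (by norm_num)]; norm_num
    calc _ ≤ |C| * |f t| * ((1 + ‖zz (dl n)‖) *
          Real.sqrt (‖SS (wS n)‖ ^ 2 + ‖wv n‖ ^ 2 + ‖zz (dl n)‖ ^ 2 * ‖wv n‖ ^ 2)) :=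
          mul_le_mul_of_nonneg_right h9 (by positivity)
      _ ≤ _ := by
          apply mul_le_mul_of_nonneg_left _ (by positivity)
          apply mul_le_mul (by linarith) (h3.trans _) (Real.sqrt_nonneg _) (by positivity)
          gcongr
  have h11 : 0 < ‖zz (dl n)‖ * ‖wv n‖ := by positivity
  apply le_of_mul_le_mul_right _ h11
  calc Real.exp (-(dl n * t)) * (‖zz (dl n)‖ * ‖wv n‖) =
        ‖zz (dl n)‖ * Real.exp (-(dl n * t)) * ‖wv n‖ := by ring
    _ ≤ _ := h8
    _ = _ := by ring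

/-- the lower bound at every time -/
lemma lower (f : ℝ → ℝ) (hf : StableAt AA SS B f) :
    ∃ c : ℝ, 0 < c ∧ ∀ t : ℝ, 0 < t → c / √(1 + t) ≤ |f t| := by
  obtain ⟨C, hC⟩ := hf
  refine ⟨1 / (36 * (|C| + 1)), by positivity, fun t ht => ?_⟩
  set n := ⌊t⌋₊ with hn
  have h1 := key_t f C hC n ht
  have hn1 : t < n + 1 := Nat.lt_floor_add_one t
  have hn2 : (n : ℝ) ≤ t := Nat.floor_le ht.le
  have hdt : dl n * t ≤ 1 := by
    unfold dl
    rw [inv_mul_le_iff₀ (by positivity)]
    linarith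
  have hs : Real.sqrt (dl n)⁻¹ ≤ 3 * √(1 + t) := by
    unfold dl
    rw [inv_inv, Real.sqrt_le_left (by positivity), mul_pow, Real.sq_sqrt (by positivity)]
    linarith
  have he : 1 / 3 ≤ Real.exp (-(dl n * t)) := by
    calc (1 / 3 : ℝ) ≤ Real.exp (-1) := by
          rw [Real.exp_neg, one_div]
          apply inv_anti₀ (Real.exp_pos _)
          have := Real.exp_one_lt_d9
          linarith
      _ ≤ Real.exp (-(dl n * t)) := Real.exp_le_exp.2 (by linarith)
  have hq : 0 < √(1 + t) := Real.sqrt_pos.2 (by linarith)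
  have h2 : 1 / 3 ≤ 4 * |C| * |f t| * (3 * √(1 + t)) := by
    refine he.trans (h1.trans ?_)
    exact mul_le_mul_of_nonneg_left hs (by positivity)
  rw [div_div, div_le_iff₀ (by positivity)]
  have h3 : 0 ≤ |f t| * √(1 + t) := by positivity
  have h4 : |C| * (|f t| * √(1 + t)) ≤ (|C| + 1) * (|f t| * √(1 + t)) :=
    mul_le_mul_of_nonneg_right (by linarith) h3
  nlinarith

end Pool.Agent.Y603.DW
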